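import Pool.Agent.H47.PF.Lk
import Pool.Agent.H47.PF.Fin

/-!
# Unramified period-index for abelian varieties with one polarization: the proportion `1 - ∑ (-1)^k / k!`

`K` is an extension of an algebraically closed field `k` and `z_1, …, z_{2g}` are nonzero elements of `K` with one
relation `∑ w(u,v) (z_u, z_v) = 0` between the symbols of degree `n = p^m`, such that the alternating matrix
`E = w - wᵀ` is invertible modulo `p`. (If `K` is the function field of an abelian variety `A` of dimension `g` over
`k` with a polarization of degree prime to `p`, `(z_u)` generate the functions whose divisors are `n` times a divisor,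
modulo `n`-th powers, and `w` comes from the Riemann form, then the classes generated by the symbols `(z_u, z_v)` are
the classes in `Br(A)` of period dividing `n`.)

Let `S` be the group of the classes generated by the symbols `(z_u, z_v)`. At least the proportion
`∏_{m<g} (1 - p^(-2m)) (1 - ∑_{k ≤ g} (-1)^k C(p,k) / p^k)` (minus `1/p` in the second factor if `n ≠ p`) of the
classes in `S` are sums of `g - 1` symbols of degree `n`, so that their index divides `n^(g-1)`. The proportion
tends to `1 - ∑_{k ≤ g} (-1)^k / k!` (`2/3` for `g = 3`, `5/8` for `g = 4`, and `1 - 1/e` for large `g`) for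
`p → ∞`.

Proof. Modulo `p` a class is an alternating matrix `A` up to multiples of `E`, and it is a sum of `g - 1` symbols
if the Pfaffian of `A - x E`, a polynomial of degree `g` in `x`, has a zero (a simple zero for `m > 1`). Let
`M = E⁻¹ A` and let `v` be a fixed vector. The vectors `M^i v` are pairwise `E`-orthogonal, and if `A` is
chosen at random then, as long as `v, M v, …, M^i v` are linearly independent, `M^(i+1) v` is uniformly
distributed in their `E`-orthogonal complement. So they are independent up to `i = g - 1` with probability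
`∏_{m<g} (1 - p^(-2m))`, and then they span their orthogonal complement, so that the coefficients of the
polynomial (the minimal polynomial of `v`) are uniformly distributed.
-/

set_option autoImplicit false

namespace Pool.Agent.Results.MP_43d240_ag.DerangementProportion

open Filter Topology
open Pool.Agent.Helper18.Br Pool.Agent.H552R3.SymBr Pool.Agent.H552R3.SymPred Pool.Agent.H552R3.Tsen

universe u

/-- The proportion: `∏_{i<g} (1 - p^(-2i))` times the proportion of the monic polynomials of degree `g` over the field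
with `p` elements which have a zero, diminished by `1/p` if `m ≠ 1`. -/
noncomputable def bound (p g m : ℕ) : ℝ :=
  (∏ i ∈ Finset.range (g - 1), (1 - 1 / (p : ℝ) ^ (2 * (i + 1)))) *
    (1 - ∑ k ∈ Finset.range (g + 1), (-1) ^ k * (p.choose k : ℝ) / (p : ℝ) ^ k - if m = 1 then 0 else 1 / (p : ℝ))

/-- `IsSym n ζ a b γ`: `γ` is the class of the symbol algebra `(a, b)` of degree `n`; `IndDvd γ N`: the index of `γ`
divides `N`. -/
theorem result :
    (∀ {k K : Type u} [Field k] [IsAlgClosed k] [Field K] [Algebra k K] (p m g : ℕ), p.Prime → 1 ≤ m → 1 ≤ g →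
      ∀ ζ : K, IsPrimitiveRoot ζ (p ^ m) → ∀ (z : Fin (2 * g) → Kˣ)
        (θ : Fin (2 * g) → Fin (2 * g) → BrauerGroup.{u, u} K), (∀ u v, IsSym (p ^ m) ζ (z u) (z v) (θ u v)) →
      ∀ w : Fin (2 * g) → Fin (2 * g) → ℤ, ∏ u, ∏ v, θ u v ^ w u v = 1 →
      ¬ (p : ℤ) ∣ (Matrix.of fun u v => w u v - w v u).det →
      ∀ S : Subgroup (BrauerGroup.{u, u} K), S = Subgroup.closure {γ | ∃ u v, γ = θ u v} →
      Finite S ∧ bound p g m * Nat.card S ≤
        Nat.card {α : S // IndDvd (α : BrauerGroup.{u, u} K) ((p ^ m) ^ (g - 1)) ∧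
          ∃ (s t : Fin (g - 1) → Kˣ) (σ : Fin (g - 1) → BrauerGroup.{u, u} K),
            (∀ i, IsSym (p ^ m) ζ (s i) (t i) (σ i)) ∧ (α : BrauerGroup.{u, u} K) = ∏ i, σ i}) ∧
    ∀ g m : ℕ, Tendsto (fun p : ℕ => bound p g m) atTop
      (𝓝 (1 - ∑ k ∈ Finset.range (g + 1), (-1) ^ k / (k.factorial : ℝ))) := by
  constructor
  · intro k K _ _ _ _ p m g hp hm hg ζ hζ z θ hθ w hw hdet S hS
    haveI : Fact p.Prime := ⟨hp⟩
    by_cases h1 : m = 1
    · subst h1
      have e : bound p g 1 = Pool.Agent.H47.PF.Cnt.cyc p g * Pool.Agent.H47.PF.Cnt.rho p g := by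
        unfold bound Pool.Agent.H47.PF.Cnt.cyc Pool.Agent.H47.PF.Cnt.rho
        rw [if_pos rfl, sub_zero]
      rw [e]
      simp only [pow_one] at hζ hθ ⊢
      exact Pool.Agent.H47.PF.Lk.prime_case (k := k) Pool.Agent.H47.PF.NOROOT.main Pool.Agent.H47.PF.Fin.cyc
        Pool.Agent.H47.PF.Fin.last Pool.Agent.H47.PF.ROOT.main p ζ hζ g hg z θ hθ w hw hdet S hS
    · have e : bound p g m = Pool.Agent.H47.PF.Cnt.cyc p g * (Pool.Agent.H47.PF.Cnt.rho p g - 1 / p) := by
        unfold bound Pool.Agent.H47.PF.Cnt.cyc Pool.Agent.H47.PF.Cnt.rho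
        rw [if_neg h1]
      rw [e]
      exact Pool.Agent.H47.PF.Lk.power_case (k := k) Pool.Agent.H47.PF.NOROOT.main Pool.Agent.H47.PF.MULT.main
        Pool.Agent.H47.PF.Fin.cyc Pool.Agent.H47.PF.Fin.last Pool.Agent.H47.PF.Fin.simple p m hm ζ hζ g hg z θ hθ
        w hw hdet S hS
  · intro g m
    by_cases h1 : m = 1
    · refine (Pool.Agent.H47.PF.Fin.lim0 g).congr fun p => ?_
      unfold bound Pool.Agent.H47.PF.Cnt.cyc Pool.Agent.H47.PF.Cnt.rho
      rw [if_pos h1, sub_zero]
    · refine (Pool.Agent.H47.PF.Fin.lim1 g).congr fun p => ?_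
      unfold bound Pool.Agent.H47.PF.Cnt.cyc Pool.Agent.H47.PF.Cnt.rho
      rw [if_neg h1]

end Pool.Agent.Results.MP_43d240_ag.DerangementProportion
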