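import Pool.Agent.H47.PD.Fin
import Pool.Agent.H47.PD.Comp
import Pool.Agent.H47.PT.MeanN

/-!
# Unramified period-index for the reductions of a fixed integral class on abelian varieties: density of the good primes

Let `w` and `a` be integral matrices of size `2 g` with `det (w - wᵀ) ≠ 0`. For `n ≥ 1`, an extension `K` of an
algebraically closed field and elements `z_1, …, z_{2g}` of `K` with the relation `∑ w(u,v) (z_u, z_v) = 0` between
symbols of degree `n` consider the class `α_n = ∑ a(u,v) (z_u, z_v)`. (For a complex abelian variety `A` of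
dimension `g` with a polarization with the Riemann form `w - wᵀ` and the functions `z_u` of the `n`-isogeny, `α_n` is the
image of the integral class `a ∈ H²(A, ℤ)` in `Br(A)[n]`; all classes of the Brauer group are of this form.)

(1) For every `a` there is a set `S` of primes of lower natural density at least `c = 1 / g` such that the index of `α_n`
divides `n^(g-1)` for all `n` composed of primes in `S` (and `n^(g-1) b` for all `n = m b` with `m` composed of primes
in `S`); and in the mean over all `n` the exponent is at most `g - c`: the index of `α_n` divides `n^(g-1) b(n)` and the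
mean values of `log b(n) / log n` are at most `1 - c + o(1)`.
(2) For almost all `a` (for all but `o(H^(4g²))` of the matrices with entries in `[0, H)`) this holds with
`c = 1 - ∑_{k ≤ g} (-1)^k / k!` (`1/2, 2/3, 5/8, 19/30, …` for `g = 2, 3, 4, 5, …`, and `1 - 1/e` for large `g`).

Proof. The Pfaffian `f(x)` of `(a - aᵀ) + x (w - wᵀ)` is an integral polynomial of degree `g`. If an irreducible
factor of `f` has a zero modulo `p` then, with finitely many exceptions, it has zeros modulo all `p^m`. Let `S` be the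
set of these primes. If `n` is composed of primes in `S` then `n` divides `f(x) ≠ 0` for some integer `x`, so that the
product of the elementary divisors of the alternating matrix `(a - aᵀ) + x (w - wᵀ)` is divisible by `n`, and the index
divides `n^(g-1)`. By Chebotarev's theorem the density of these primes is the proportion of the elements of the Galois group with a fixed
point on the zeros; it is at least `1 / g`, since the group is transitive on at most `g` zeros. By cyclic vectors the
polynomial `f` modulo a prime `p` is uniformly distributed, up to a small proportion, when `a` runs over the matrices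
modulo `p`, so that for almost all `a` there are primes for which the Frobenius elements are cycles of the lengths
`g`, `g - 1` and `2`; then the Galois group is the symmetric group, and the proportion of the permutations with a fixed
point is `1 - ∑_{k ≤ g} (-1)^k / k!`. For the mean values let `b(n)` be the part of `n` composed of primes not in `S`
and sum `log b(n)` with the theorem of Legendre and partial summation.
-/

set_option autoImplicit false

namespace Pool.Agent.Results.MP_43d240_ag.FixedIntegralClass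

open Filter Topology
open Pool.Agent.Helper18.Br Pool.Agent.H552R3.SymBr Pool.Agent.H552R3.SymPred Pool.Agent.H552R3.Tsen

universe u

/-- For all extensions `K` of algebraically closed fields `k`, all primitive `n`-th roots of unity `ζ ∈ K` and all
nonzero `z_1, …, z_{2g}` in `K` with the relation `∑ w(u,v) (z_u, z_v) = 0` between symbols of degree `n` the index of
the class `∑ a(u,v) (z_u, z_v)` divides `n^(g-1) b`. (`IsSym n ζ x y γ`: `γ` is the class of the symbol algebra
`(x, y)` of degree `n`; `IndDvd γ N`: the index of `γ` divides `N`.) -/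
def Good {g : ℕ} (w a : Fin (2 * g) → Fin (2 * g) → ℤ) (n b : ℕ) : Prop :=
  ∀ (k K : Type u) [Field k] [IsAlgClosed k] [Field K] [Algebra k K] (ζ : K), IsPrimitiveRoot ζ n →
    ∀ (z : Fin (2 * g) → Kˣ) (θ : Fin (2 * g) → Fin (2 * g) → BrauerGroup.{u, u} K),
      (∀ u v, IsSym n ζ (z u) (z v) (θ u v)) → ∏ u, ∏ v, θ u v ^ w u v = 1 →
      IndDvd (∏ u, ∏ v, θ u v ^ a u v) (n ^ (g - 1) * b)

/-- There is a set `S` of primes of lower natural density at least `c` such that the index of the class divides
`n^(g-1)` for all `n` composed of primes in `S`, more generally `n^(g-1) b` for all `n = m b` with `m` composed of primes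
in `S`. -/
def GoodDensity {g : ℕ} (w a : Fin (2 * g) → Fin (2 * g) → ℤ) (c : ℝ) : Prop :=
  ∃ S : Set ℕ,
    (∀ ε : ℝ, 0 < ε → ∀ᶠ N : ℕ in atTop,
      (c - ε) * (Nat.primeCounting N : ℝ) ≤ Nat.card {p : ℕ // p ≤ N ∧ p.Prime ∧ p ∈ S}) ∧
    ∀ m b : ℕ, 0 < m → 0 < b → (∀ p : ℕ, p.Prime → p ∣ m → p ∈ S) → Good.{u} w a (m * b) b

/-- In the mean over all `n` the exponent is at most `g - c`: for all `n ≥ 1` the index of the class divides
`n^(g-1) b(n)`, and the mean value of `log b(n) / log n` over `2 ≤ n ≤ N` is at most `1 - c + ε` for large `N`. -/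
def MeanExponent {g : ℕ} (w a : Fin (2 * g) → Fin (2 * g) → ℤ) (c : ℝ) : Prop :=
  ∃ b : ℕ → ℕ, (∀ n : ℕ, 0 < n → 0 < b n ∧ Good.{u} w a n (b n)) ∧
    ∀ ε : ℝ, 0 < ε → ∀ᶠ N : ℕ in atTop,
      ∑ n ∈ Finset.Icc 2 N, Real.log (b n) / Real.log n ≤ (1 - c + ε) * N

theorem result (g : ℕ) (hg : 1 ≤ g) (w : Fin (2 * g) → Fin (2 * g) → ℤ)
    (hw : (Matrix.of fun u v => w u v - w v u).det ≠ 0) :
    -- (1) every integral class
    (∀ a : Fin (2 * g) → Fin (2 * g) → ℤ, GoodDensity.{u} w a (1 / g) ∧ MeanExponent.{u} w a (1 / g)) ∧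
    -- (2) almost all integral classes
    Tendsto (fun H : ℕ => (Nat.card {a : Fin (2 * g) × Fin (2 * g) → Fin H //
      ¬ (GoodDensity.{u} w (fun u v => ((a (u, v) : ℕ) : ℤ))
          (1 - ∑ k ∈ Finset.range (g + 1), (-1) ^ k / (k.factorial : ℝ)) ∧
        MeanExponent.{u} w (fun u v => ((a (u, v) : ℕ) : ℤ))
          (1 - ∑ k ∈ Finset.range (g + 1), (-1) ^ k / (k.factorial : ℝ)))} : ℝ) / (H : ℝ) ^ ((2 * g) ^ 2))
      atTop (𝓝 0) := by
  have hQ : ∀ (K : Type u) [Field K] (n : ℕ) (hn : 0 < n) (ζ : K) (hζ : IsPrimitiveRoot ζ n)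
      (z : Fin (2 * g) → Kˣ) (θ : Fin (2 * g) → Fin (2 * g) → BrauerGroup.{u, u} K),
      (∀ u v, IsSym n ζ (z u) (z v) (θ u v)) → ∀ b : Fin (2 * g) → Fin (2 * g) → ℤ,
      Pool.Agent.Y109.PI.Q (Pool.Agent.Y109.PI.symHom hn hζ) z b = ∏ u, ∏ v, θ u v ^ b u v := by
    intro K _ n hn ζ hζ z θ hθ b
    rw [Pool.Agent.Y109.PI.Q, Fintype.prod_prod_type]
    refine Finset.prod_congr rfl fun u _ => Finset.prod_congr rfl fun v _ => ?_
    rw [(isSym_iff hn hζ (z u) (z v) (θ u v)).1 (hθ u v)]
    rfl
  have hgood : ∀ (a : Fin (2 * g) → Fin (2 * g) → ℤ) (m b : ℕ), 0 < m → 0 < b →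
      (∀ p : ℕ, p.Prime → p ∣ m → p ∈ {p | Pool.Agent.H47.PD.Asm.Hi g w a p}) → Good.{u} w a (m * b) b := by
    intro a m b hm hb hS k K _ _ _ _ ζ hζ z θ hθ hrel
    have hn : 0 < m * b := Nat.mul_pos hm hb
    have hf0 : Pool.Agent.H47.PD.Asm.fp g w a ≠ 0 := by
      intro h0
      have := (Pool.Agent.H47.PD.Asm.fp_deg g w a hw).1
      rw [h0, Polynomial.natDegree_zero] at this
      omega
    obtain ⟨t, h1, h2⟩ := Pool.Agent.H47.PD.Comp.exists_t _ hf0 m hm hS
    rw [← hQ K (m * b) hn ζ hζ z θ hθ a]
    exact Pool.Agent.H47.PT.AllN.index_of_pf_nb (k := k) (m * b) hn m b hm hb rfl hζ g hg z w a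
      (by rw [hQ K (m * b) hn ζ hζ z θ hθ w]; exact hrel) t _ (Pool.Agent.H47.PD.Asm.fp_eval g w a t) h1 h2
  have hlow : ∀ (a : Fin (2 * g) → Fin (2 * g) → ℤ) (c : ℝ), 0 ≤ c → c ≤ 1 →
      Pool.Agent.H47.PD.Asm.LowDens (Pool.Agent.H47.PD.Asm.Hi g w a) c →
      GoodDensity.{u} w a c ∧ MeanExponent.{u} w a c := by
    intro a c hc0 hc1 h
    exact ⟨⟨{p | Pool.Agent.H47.PD.Asm.Hi g w a p}, h, hgood a⟩,
      Pool.Agent.H47.PT.MeanN.mean_n {p | Pool.Agent.H47.PD.Asm.Hi g w a p} c hc0 hc1 h (Good.{u} w a) (hgood a)⟩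
  constructor
  · intro a
    have hg' : (1 : ℝ) ≤ g := by exact_mod_cast hg
    exact hlow a _ (by positivity) (by rw [div_le_one (by linarith)]; exact hg')
      (Pool.Agent.H47.PD.Fin.every g hg w a hw)
  · obtain ⟨d0, d1⟩ := Pool.Agent.H47.PT.MeanN.der_bounds g
    refine squeeze_zero (fun H => by positivity) (fun H => ?_) (Pool.Agent.H47.PD.Fin.almost_all g hg w hw)
    refine div_le_div_of_nonneg_right ?_ (by positivity)
    rw [Nat.cast_le]
    refine Nat.card_le_card_of_injective (fun a => ⟨a.1, fun h => a.2 (hlow _ _ d0 d1 h)⟩) ?_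
    intro a a' h
    rw [Subtype.mk.injEq] at h
    exact Subtype.ext h

end Pool.Agent.Results.MP_43d240_ag.FixedIntegralClass
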