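import Pool.Agent.H79.LP.IndMain
import Pool.Agent.H79.LP.Crit

set_option autoImplicit false

/-!
# Unramified period-index: symbol length and index, prime by prime

`Pool.Agent.H79.LP.Defs` defines

* `Len k q ζ U V l`: a derivation of the fact that every class in `U` is the sum of `l` symbols of degree `q` and an
  element of `V`, with rules for sums, towers, curves, blocks with nondegenerate relations (`l = g` for
  `2 g` elements, relative to arbitrary further elements) and blocks with short forms (for example
  `l = g - 1`); `LenP` is the same for `p`-symbols in characteristic `p`;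
* `LenAll k n ζ U V l`: such derivations for the `p`-primary parts of `U`, for all primes `p ∣ n`, which
  are independent of each other;
* `Ind k K V N`: a derivation of the fact that the index of every class in `V` divides `N`, with rules for sums,
  `LenAll`, `LenP`, extensions of `K`, and finite extensions of degree `m m'`, `m'` prime to the index.

For varieties: let `K` be the function field of `X` over the algebraically closed field `k`. The elements
`z_a` are functions on (a quotient of a factor of) `X` whose divisors are divisible by `q`, i.e. Kummer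
classes of `H^1(X, μ_q)`, the relations come from divisor classes, which vanish in the Brauer group, `V`
contains the unramified classes of the other factors, and the symbols generate the unramified classes
by the Künneth formula; see the library modules `MP_43d240_ag/*`. A product decomposition up to an
isogeny or a covering may be used for one prime number `p` and another one for another prime number.
-/

namespace Pool.Agent.Results.MP_43d240_ag.PrimeByPrime

open Pool.Agent.H552R3.SymBr Pool.Agent.H552R3.SymPred Pool.Agent.H79.LP

universe u v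

/-- **Symbol length and index, prime by prime.** Let `K` be an extension of an algebraically closed field
`k`.

(1) If `LenAll k n ζ U V l` and `l p ≤ L` for all prime divisors `p` of `n`, then every class in `U` is the
sum of `L` symbols of degree `n` and an element of `V`.

(2) If `LenP k p U V l`, `p = char K`, then every class in `U` is the sum of `l` `p`-symbols and an element
of `V`.

(3) If `Ind k K V N`, then the index of every class in `V` divides `N`.

(4) Criteria for the conditions of the rules: let `P` be the Pfaffian of the generic combination of the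
`w_j - w_jᵀ`, of size `2 g`. `Nondeg p w` holds if `P ∉ (p, X_1 ^ p, …, X_t ^ p)`, and `Short p (g - 1) w`
holds if `P ^ (p - 1) ∉ (p, X_1 ^ p, …, X_t ^ p)`. `Short q ⌊m / 2⌋ w` always holds for matrices of size `m`.
`Short q (g - 1) w` holds for the `w_i` with the upper right blocks `Tr(ε_i ε_k ε_l)` and zeros elsewhere,
if `ε` is a basis of a ring `O` which is free of rank `g > 0` over `ℤ`, with discriminant prime to
`q > 0`, and `O` has a homomorphism to `ℤ / p` for all `p` with `p ^ 2 ∣ q`. `PNondeg p w` holds for one
matrix `w` with determinant prime to `p > g`, and for `g > 0` matrices `w_s` of size `g` for which the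
number of `c ∈ F_p ^ g` with `det (∑ c_s w_s) = 0` is not divisible by `p`. -/
theorem result :
    (∀ (k K : Type u) [Field k] [IsAlgClosed k] [Field K] [Algebra k K] (n : ℕ) (ζ : K)
      (U V : Subgroup (BrauerGroup.{u, u} K)) (l : ℕ → ℕ), 0 < n → IsPrimitiveRoot ζ n →
      LenAll k n ζ U V l → ∀ L : ℕ, (∀ p : ℕ, p.Prime → p ∣ n → l p ≤ L) →
      ∀ α ∈ U, SumSym n ζ L V α) ∧
    (∀ (k K : Type u) [Field k] [IsAlgClosed k] [Field K] [Algebra k K] (p l : ℕ)
      (U V : Subgroup (BrauerGroup.{u, u} K)), p.Prime → CharP K p → LenP k p U V l →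
      ∀ α ∈ U, SumPSym p l V α) ∧
    (∀ (k K : Type u) [Field k] [IsAlgClosed k] [Field K] [Algebra k K]
      (V : Subgroup (BrauerGroup.{u, u} K)) (N : ℕ), Ind k K V N → ∀ α ∈ V, IndDvd α N) ∧
    (∀ (I : Type) [Fintype I] [DecidableEq I] (g t p : ℕ) (w : Fin t → I → I → ℤ)
      (P : MvPolynomial (Fin t) ℤ), p.Prime → 0 < g → Fintype.card I = 2 * g → IsPfaffian w P →
      (NotInFrob p P → Nondeg p w) ∧ (NotInFrob p (P ^ (p - 1)) → Short p (g - 1) w)) ∧
    (∀ (I : Type) [Fintype I] (q t : ℕ) (w : Fin t → I → I → ℤ), Short q (Fintype.card I / 2) w) ∧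
    (∀ (O : Type v) [CommRing O] (g q : ℕ) (ε : Module.Basis (Fin g) ℤ O)
      (w : Fin g → Fin g ⊕ Fin g → Fin g ⊕ Fin g → ℤ), 0 < g → 0 < q →
      (∀ p : ℕ, p.Prime → p ∣ q → ¬ (p : ℤ) ∣ Algebra.discr ℤ ε) →
      (∀ p : ℕ, p.Prime → p ^ 2 ∣ q → Nonempty (O →+* ZMod p)) →
      (∀ i u v, w i u v = Sum.elim (fun k => Sum.elim (fun _ => 0)
        (fun l => Algebra.trace ℤ O (ε i * ε k * ε l)) v) (fun _ => 0) u) → Short q (g - 1) w) ∧
    (∀ (g p : ℕ) (w : Matrix (Fin g) (Fin g) ℤ), p.Prime → g < p → ¬ (p : ℤ) ∣ w.det →
      PNondeg p (fun _ : Fin 1 => w)) ∧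
    (∀ (g p : ℕ) (w : Fin g → Matrix (Fin g) (Fin g) ℤ), p.Prime → 0 < g →
      (¬ p ∣ Nat.card {c : Fin g → ZMod p //
        (∑ s, c s • (w s).map (Int.castRingHom (ZMod p))).det = 0}) → PNondeg p w) := by
  refine ⟨?_, ?_, ?_, ?_, ?_, ?_, ?_, ?_⟩
  · intro k K _ _ _ _ n ζ U V l hn hζ h L hL α hα
    exact glue hn hζ h L hL α (Subgroup.mem_sup_right hα)
  · intro k K _ _ _ _ p l U V hp hc h α hα
    haveI : Fact p.Prime := ⟨hp⟩
    obtain ⟨x, y, v, hv, h1⟩ := h.rep α hα
    exact ⟨x, y, _, v, hv, fun i => (Pool.Agent.H19PS.isPSym_iff _ _ _).2 rfl, h1⟩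
  · intro k K _ _ _ _ V N h
    exact h.main.2
  · intro I _ _ g t p w P hp hg hI hP
    exact ⟨nondeg_of_pfaffian w P p hp hI hP, short_of_pfaffian w P p hp hg hI hP⟩
  · intro I _ q t w
    exact short_free w q
  · intro O _ g q ε w hg hq hd hφ hw
    have e : w = Pool.Agent.Y109.PI.rmw ε := by
      funext i u v
      exact hw i u v
    rw [e]
    exact short_rm ε hg q hq hd hφ
  · intro g p w hp hg hw
    exact p_one hp hg w hw
  · intro g p w hp hg hw
    exact p_many hp hg w hw

end Pool.Agent.Results.MP_43d240_ag.PrimeByPrime
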