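import Pool.Agent.H47.PT.AllN

/-!
# Unramified period-index for the reductions of a fixed integral class, two polarizations

Let `w_0`, `w_1` and `a` be integral matrices of size `2 g`, `g ≥ 2`, such that `det (w_0 - w_0ᵀ) ≠ 0` and the
alternating matrices `w_0 - w_0ᵀ` and `w_1 - w_1ᵀ` are linearly independent. For `n ≥ 1`, an extension `K` of an
algebraically closed field and elements `z_1, …, z_{2g}` of `K` with the relations `∑ w_j(u,v) (z_u, z_v) = 0`,
`j = 0, 1`, between symbols of degree `n` consider the class `α_n = ∑ a(u,v) (z_u, z_v)`. (For a complex abelian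
variety `A` of dimension `g` and Picard number at least two, the Riemann forms `w_j - w_jᵀ` of two line bundles and the
functions `z_u` of the `n`-isogeny, `α_n` is the image of the integral class `a ∈ H²(A, ℤ)` in `Br(A)[n]`.)

For almost all `a` (for all but `o(H^(4g²))` of the matrices with entries in `[0, H)`) there is a set `S` of primes of
natural density `1` such that the index of `α_n` divides `n^(g-1)` for all `n` composed of primes in `S`, and for every
`ε > 0` the index of `α_n` divides `n^(g-1) b` with `b ≤ n ^ ε` for all `n` outside of a set of natural density zero.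

Proof. For an integer `y` let `f_y(x)` be the Pfaffian of `(a - aᵀ) + x (E_0 + y E_1)`, where `E_j = w_j - w_jᵀ`.
1. Fix `y ≠ y'`. For almost all `a` the Galois groups of `f_y` and `f_{y'}` are symmetric groups (see
`FixedIntegralClass`). For a positive proportion of all `a` modulo `p` the numbers `N`, `N'` of the zeros of `f_y`,
`f_{y'}` modulo `p` are different: the mean values of `N ^ 2` and `N' ^ 2` are near `2` (cyclic vectors), and the one
of `N N'` is near `1` (count of pairs of kernel vectors of two different translates). So for almost all `a` there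
is a prime for which they are different.
2. Let `a` be such a class. By Chebotarev's theorem the numbers of zeros of `f_y` and `f_{y'}` are different modulo
infinitely many primes. As the Galois group of `f_t` is the symmetric group for all `t` congruent to `y` modulo some
`M`, with the Chinese remainder theorem we find for each `r` integers `t_1, …, t_r` such that `f_{t_i}` has the
symmetric group for all `i` and for `i ≠ j` some element of the common Galois group `G` has different numbers of fixed
points on the zeros of `f_{t_i}` and of `f_{t_j}`.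
3. As both actions are doubly transitive, it follows (formula of Burnside) that `G` is transitive on the pairs (zero of
`f_{t_i}`, zero of `f_{t_j}`), and then, by a second moment, that at most the proportion `1 / r` of the elements of
`G` has no fixed points at all. By Chebotarev's theorem the density of the primes for which at least one `f_{t_i}` has a
zero is at least `1 - 1 / r`. Now `r` is arbitrary.
4. For `n = m b` with `m` composed of primes in `S` the index of `α_n` divides `n^(g-1) b`; the part of `n` composed of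
primes of a set of density zero is at most `n ^ ε` for almost all `n`.
-/

set_option autoImplicit false

namespace Pool.Agent.Results.MP_43d240_ag.TwoPolarizations

open Filter Topology
open Pool.Agent.Helper18.Br Pool.Agent.H552R3.SymBr Pool.Agent.H552R3.SymPred Pool.Agent.H552R3.Tsen

universe u

/-- For all extensions `K` of algebraically closed fields `k`, all primitive `n`-th roots of unity `ζ ∈ K` and all
nonzero `z_1, …, z_{2g}` in `K` with the relations `∑ w_j(u,v) (z_u, z_v) = 0`, `j = 0, 1`, between symbols of degree `n`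
the index of the class `∑ a(u,v) (z_u, z_v)` divides `n^(g-1) b`. (`IsSym n ζ x y γ`: `γ` is the class of the symbol
algebra `(x, y)` of degree `n`; `IndDvd γ N`: the index of `γ` divides `N`.) -/
def Good {g : ℕ} (w : Fin 2 → Fin (2 * g) → Fin (2 * g) → ℤ) (a : Fin (2 * g) → Fin (2 * g) → ℤ) (n b : ℕ) : Prop :=
  ∀ (k K : Type u) [Field k] [IsAlgClosed k] [Field K] [Algebra k K] (ζ : K), IsPrimitiveRoot ζ n →
    ∀ (z : Fin (2 * g) → Kˣ) (θ : Fin (2 * g) → Fin (2 * g) → BrauerGroup.{u, u} K),
      (∀ u v, IsSym n ζ (z u) (z v) (θ u v)) → (∀ j, ∏ u, ∏ v, θ u v ^ w j u v = 1) →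
      IndDvd (∏ u, ∏ v, θ u v ^ a u v) (n ^ (g - 1) * b)

/-- There is a set `S` of primes of natural density `1` such that the index of the class divides `n^(g-1)` for all `n`
composed of primes in `S`, more generally `n^(g-1) b` for all `n = m b` with `m` composed of primes in `S`. -/
def DensityOne {g : ℕ} (w : Fin 2 → Fin (2 * g) → Fin (2 * g) → ℤ) (a : Fin (2 * g) → Fin (2 * g) → ℤ) : Prop :=
  ∃ S : Set ℕ,
    Tendsto (fun N : ℕ => (Nat.card {p : ℕ // p ≤ N ∧ p.Prime ∧ p ∈ S} : ℝ) / (Nat.primeCounting N : ℝ)) atTop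
      (𝓝 1) ∧
    ∀ m b : ℕ, 0 < m → 0 < b → (∀ p : ℕ, p.Prime → p ∣ m → p ∈ S) → Good.{u} w a (m * b) b

/-- For every `ε > 0` and for all `n` outside of a set of natural density zero there is `b ≤ n ^ ε` such that the
index of the class divides `n^(g-1) b`. -/
def AlmostAllPeriods {g : ℕ} (w : Fin 2 → Fin (2 * g) → Fin (2 * g) → ℤ) (a : Fin (2 * g) → Fin (2 * g) → ℤ) : Prop :=
  ∀ ε : ℝ, 0 < ε →
    Tendsto (fun N : ℕ =>
      (Nat.card {n : ℕ // n ≤ N ∧ 0 < n ∧ ¬ ∃ b : ℕ, 0 < b ∧ (b : ℝ) ≤ (n : ℝ) ^ ε ∧ Good.{u} w a n b} : ℝ) /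
        (N : ℝ)) atTop (𝓝 0)

theorem result (g : ℕ) (hg : 2 ≤ g) (w : Fin 2 → Fin (2 * g) → Fin (2 * g) → ℤ)
    (hw : (Matrix.of fun u v => w 0 u v - w 0 v u).det ≠ 0)
    (hind : ∀ x y : ℤ, (∀ u v, x * (w 0 u v - w 0 v u) + y * (w 1 u v - w 1 v u) = 0) → x = 0 ∧ y = 0) :
    Tendsto (fun H : ℕ => (Nat.card {a : Fin (2 * g) × Fin (2 * g) → Fin H //
      ¬ (DensityOne.{u} w (fun u v => ((a (u, v) : ℕ) : ℤ)) ∧
        AlmostAllPeriods.{u} w (fun u v => ((a (u, v) : ℕ) : ℤ)))} : ℝ) / (H : ℝ) ^ ((2 * g) ^ 2)) atTop (𝓝 0) := by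
  have hQ : ∀ (K : Type u) [Field K] (n : ℕ) (hn : 0 < n) (ζ : K) (hζ : IsPrimitiveRoot ζ n)
      (z : Fin (2 * g) → Kˣ) (θ : Fin (2 * g) → Fin (2 * g) → BrauerGroup.{u, u} K),
      (∀ u v, IsSym n ζ (z u) (z v) (θ u v)) → ∀ b : Fin (2 * g) → Fin (2 * g) → ℤ,
      Pool.Agent.Y109.PI.Q (Pool.Agent.Y109.PI.symHom hn hζ) z b = ∏ u, ∏ v, θ u v ^ b u v := by
    intro K _ n hn ζ hζ z θ hθ b
    rw [Pool.Agent.Y109.PI.Q, Fintype.prod_prod_type]
    refine Finset.prod_congr rfl fun u _ => Finset.prod_congr rfl fun v _ => ?_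
    rw [(isSym_iff hn hζ (z u) (z v) (θ u v)).1 (hθ u v)]
    rfl
  obtain ⟨y, hy, hyd⟩ := Pool.Agent.H47.PT.Fin.ys (Fin (2 * g)) (Pool.Agent.Y109.PI.dif (w 0))
    (Pool.Agent.Y109.PI.dif (w 1)) hw 2
  have hW : ∀ i, Pool.Agent.Y109.PI.dif (w 0 + y i • w 1) =
      Pool.Agent.Y109.PI.dif (w 0) + y i • Pool.Agent.Y109.PI.dif (w 1) := fun i =>
    Pool.Agent.H47.PT.Comp.dif_add g _ _ _
  have hyd' : ∀ i, (Pool.Agent.Y109.PI.dif (w 0 + y i • w 1)).det ≠ 0 := fun i => by
    rw [hW]
    exact hyd i
  have hwit : ∀ a : Fin (2 * g) → Fin (2 * g) → ℤ,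
      Pool.Agent.H47.PT.One.Wit g (fun i => w 0 + y i • w 1) a →
        DensityOne.{u} w a ∧ AlmostAllPeriods.{u} w a := by
    intro a h
    have hdens := Pool.Agent.H47.PT.One.tendsto_one _ (Pool.Agent.H47.PT.One.dens_one g hg w y a hyd' h)
    have hgood : ∀ m b : ℕ, 0 < m → 0 < b → (∀ p : ℕ, p.Prime → p ∣ m →
        p ∈ {p | ∃ t : ℤ, Pool.Agent.H47.PD.Asm.Hi g (w 0 + t • w 1) a p}) → Good.{u} w a (m * b) b := by
      intro m b hm hb hS k K _ _ _ _ ζ hζ z θ hθ hrel
      have hn : 0 < m * b := Nat.mul_pos hm hb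
      obtain ⟨s, t, h1, h2⟩ := Pool.Agent.H47.PT.Comp.exists_st g (by omega) (w 0) (w 1) a hw m hm (by
        intro p hp hpn l
        obtain ⟨t, ht⟩ := hS p hp hpn
        obtain ⟨x, hx⟩ := ht l
        exact ⟨x, x * t, by rw [Pool.Agent.H47.PT.Comp.P2_line]; exact hx⟩)
      rw [← hQ K (m * b) hn ζ hζ z θ hθ a]
      exact Pool.Agent.H47.PT.AllN.index_two_b (k := k) (m * b) hn m b hm hb rfl hζ g (by omega) z (w 0) (w 1) a
        (by rw [hQ K (m * b) hn ζ hζ z θ hθ]; exact hrel 0) (by rw [hQ K (m * b) hn ζ hζ z θ hθ]; exact hrel 1)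
        s t h1 h2
    exact ⟨⟨_, hdens, hgood⟩, fun ε hε => Pool.Agent.H47.PT.AllN.almost_all_n _ hdens (Good.{u} w a) hgood ε hε⟩
  refine squeeze_zero (fun H => by positivity) (fun H => ?_) (Pool.Agent.H47.PT.One.almost_wit g hg
    (fun i => w 0 + y i • w 1) hyd' ?_)
  · refine div_le_div_of_nonneg_right ?_ (by positivity)
    rw [Nat.cast_le]
    refine Nat.card_le_card_of_injective (fun a => ⟨a.1, fun h => a.2 (hwit _ h)⟩) ?_
    intro a a' h
    rw [Subtype.mk.injEq] at h
    exact Subtype.ext h
  · intro i j hij x x' hxx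
    rw [hW, hW] at hxx
    obtain ⟨h1, h2⟩ := hind (x + x') (x * y i + x' * y j) (by
      intro u v
      have := congrFun (congrFun hxx u) v
      simp only [Matrix.add_apply, Matrix.smul_apply, Pool.Agent.Y109.PI.dif, Matrix.of_apply, smul_eq_mul,
        Matrix.zero_apply] at this
      linear_combination this)
    have h3 : x * (y i - y j) = 0 := by linear_combination h2 - y j * h1
    have h4 : x = 0 := (mul_eq_zero.1 h3).resolve_right fun h => hij (hy (sub_eq_zero.1 h))
    exact ⟨h4, by linarith⟩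

end Pool.Agent.Results.MP_43d240_ag.TwoPolarizations
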